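import Mathlib
import Pool.Agent.H532.AN.Neg
import Pool.Agent.H532.RM.Bft

/-!
# Andrica's inequality in hybrid sieves with arbitrary small primes

The primes are what is left of the integers after the sieve by the class `0` modulo `p` for all
`p ≤ √n`. In the random model of Banks, Ford and Tao (Large prime gaps and probabilistic models,
Invent. Math. 2023) one removes from the integers a random class `a_p` modulo `p` for every prime
`p` up to the limit `z(n)` with `∏_{p ≤ z(n)} (1 - 1/p) ≈ 1 / log n`; `z(n) = n ^ (0.56…)`.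

We consider *hybrid sieves*: for the integers `n` of the dyadic block `2^j ≤ n < 2^(j+1)` and the
primes `p ≤ y_j` the removed class `b_j(p)` is prescribed, for instance `b_j(p) = 0` as in the sieve
of Eratosthenes, but it may be any class and it may depend on the block; only for the primes
`y_j < p ≤ z(n)` it is the random class `a_p`.

* If `y_j ≤ 2 ^ (θ j)`, `θ < 1/4`, that is, if all classes modulo the primes up to `n ^ θ` are
  prescribed, then almost surely the next element `r'` of the sieved set after `r` satisfies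
  `√r' - √r < c` for every `c > 0` and all large `r`; so Andrica's inequality holds for all but
  finitely many pairs of consecutive elements. More precisely `√r' - √r < r ^ (2 θ - 1/2 + ε)`, and
  all intervals `(x, x + H]` with `H ≥ x ^ (2 θ + ε)` contain at least `k H / log x` elements.
* For `θ > 1/2` this is false: with the class `2^j` for all primes `p ≤ 2 ^ (θ j)` the sieved set has,
  for every `C` and every choice of the other classes, no element `n` with
  `√x < √n < √x + C`, `x = 2^j + 1`, if `j` is large.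

The proof combines the linear sieve (the weights of Rosser and Iwaniec; `1/4` is half of the sifting
limit `1/2`) with concentration of measure for the random classes. For prescribed classes the
exponents between `1/4` and `1/2` belong to the problem of Jacobsthal.
-/

set_option autoImplicit false

open Finset MeasureTheory ProbabilityTheory Filter
open scoped ENNReal Topology

namespace Pool.Agent.Results.MP_82fd4a_nt.AndricaInHybridSieves

/-- `A p`, `p` prime, are independent random variables and `A p` is uniformly distributed on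
`{0, …, p - 1}`. -/
structure RandomClasses {Ω : Type} [MeasurableSpace Ω] (μ : Measure Ω) (A : ℕ → Ω → ℕ) :
    Prop where
  meas : ∀ p, Measurable (A p)
  indep : iIndepFun (fun p : Nat.Primes => A p) μ
  unif : ∀ p : ℕ, p.Prime → ∀ r < p, μ {ω | A p ω = r} = (p : ℝ≥0∞)⁻¹

/-- `V z = ∏_{p ≤ z} (1 - 1 / p)`. -/
noncomputable def V (z : ℕ) : ℝ := ∏ p ∈ (range (z + 1)).filter Nat.Prime, (1 - 1 / (p : ℝ))

/-- The integers `n` are sieved by the primes up to `z n`; this leaves the density `1 / log n`. -/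
structure SievingLimit (z : ℕ → ℕ) : Prop where
  mono : Monotone z
  lim : Tendsto (fun n : ℕ => V (z n) * Real.log n) atTop (𝓝 1)

/-- The sieving limit of Banks, Ford and Tao: the largest `z` with `V z ≥ 1 / log n`. -/
noncomputable def banksFordTao (n : ℕ) : ℕ := sSup {z : ℕ | 1 / Real.log n ≤ V z}

/-- The hybrid sieve. The integer `n` is in the block `j = Nat.log 2 n`, that is
`2 ^ j ≤ n < 2 ^ (j + 1)`. For the primes `p ≤ z n` the removed class modulo `p` is `b j p` if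
`p ≤ y j`, and `a p` if `p > y j`. -/
def hybrid (z y : ℕ → ℕ) (b : ℕ → ℕ → ℕ) (a : ℕ → ℕ) : Set ℕ :=
  {n | ∀ p : ℕ, p.Prime → p ≤ z n →
    ¬ n ≡ (if p ≤ y (Nat.log 2 n) then b (Nat.log 2 n) p else a p) [MOD p]}

/-- The number of the elements of `R` in `(x, x + H]`. -/
noncomputable def count (R : Set ℕ) (x H : ℝ) : ℕ :=
  {n : ℕ | n ∈ R ∧ x < (n : ℝ) ∧ (n : ℝ) ≤ x + H}.ncard

/-- From some point on the next element `r'` of `R` after `r` satisfies `√r' - √r < c`: for all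
large `r` the set `R` has an element `r' > r` with `√r' - √r < c`. -/
def AndricaEventually (R : Set ℕ) (c : ℝ) : Prop :=
  ∀ᶠ r : ℕ in atTop, ∃ r' ∈ R, r < r' ∧ √(r' : ℝ) - √(r : ℝ) < c

/-- **Andrica's inequality in hybrid sieves.** -/
theorem result :
    -- the model exists
    (∃ μ : Measure (ℕ → ℕ), IsProbabilityMeasure μ ∧ RandomClasses μ (fun p ω => ω p)) ∧
    SievingLimit banksFordTao ∧
    -- (1) Andrica's inequality for arbitrary prescribed classes modulo the primes up to `n ^ θ`,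
    -- `θ < 1/4`
    (∀ θ : ℝ, θ < 1 / 4 → ∀ (Ω : Type) [MeasurableSpace Ω] (μ : Measure Ω)
      [IsProbabilityMeasure μ] (A : ℕ → Ω → ℕ), RandomClasses μ A → ∀ z : ℕ → ℕ,
      SievingLimit z → ∀ (y : ℕ → ℕ) (b : ℕ → ℕ → ℕ),
      (∀ᶠ j : ℕ in atTop, (y j : ℝ) ≤ (2 : ℝ) ^ (θ * j)) →
      ∀ᵐ ω ∂μ, ∀ c : ℝ, 0 < c → AndricaEventually (hybrid z y b (fun p => A p ω)) c) ∧
    -- (2) the quantitative form, for arbitrary exponents `κ > 2 θ`
    (∀ θ κ : ℝ, 0 < θ → 2 * θ < κ → κ ≤ 1 → ∃ k : ℝ, 0 < k ∧ ∀ (Ω : Type) [MeasurableSpace Ω]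
      (μ : Measure Ω) [IsProbabilityMeasure μ] (A : ℕ → Ω → ℕ), RandomClasses μ A →
      ∀ z : ℕ → ℕ, SievingLimit z → ∀ (y : ℕ → ℕ) (b : ℕ → ℕ → ℕ),
      (∀ᶠ j : ℕ in atTop, (y j : ℝ) ≤ (2 : ℝ) ^ (θ * j)) →
      ∀ᵐ ω ∂μ,
        (∀ᶠ r : ℕ in atTop, ∃ r' ∈ hybrid z y b (fun p => A p ω), r < r' ∧
          √(r' : ℝ) - √(r : ℝ) < (r : ℝ) ^ (κ - 1 / 2)) ∧
        (∀ᶠ x : ℝ in atTop, ∀ H : ℝ, x ^ κ ≤ H → H ≤ x →
          k * H / Real.log x ≤ count (hybrid z y b (fun p => A p ω)) x H)) ∧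
    -- (3) for `θ > 1/2` it fails for some prescribed classes, whatever the other classes are
    (∀ θ : ℝ, 1 / 2 < θ → ∀ y : ℕ → ℕ, (∀ᶠ j : ℕ in atTop, (2 : ℝ) ^ (θ * j) ≤ y j) →
      ∃ b : ℕ → ℕ → ℕ, ∀ z : ℕ → ℕ, SievingLimit z → ∀ a : ℕ → ℕ, ∀ C : ℝ,
      ∀ᶠ j : ℕ in atTop, ∀ n ∈ hybrid z y b a,
        ¬ (√((2 : ℝ) ^ j + 1) < √(n : ℝ) ∧ √(n : ℝ) < √((2 : ℝ) ^ j + 1) + C)) := by
  have hR : ∀ {Ω : Type} [MeasurableSpace Ω] {μ : Measure Ω} {A : ℕ → Ω → ℕ},
      RandomClasses μ A → Pool.Agent.H532.RM.RandomClasses μ A := fun h =>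
    ⟨h.meas, h.indep, h.unif⟩
  have quant : ∀ θ κ : ℝ, 0 < θ → 2 * θ < κ → κ ≤ 1 → ∃ k : ℝ, 0 < k ∧ ∀ (Ω : Type)
      [MeasurableSpace Ω]
      (μ : Measure Ω) [IsProbabilityMeasure μ] (A : ℕ → Ω → ℕ), RandomClasses μ A →
      ∀ z : ℕ → ℕ, SievingLimit z → ∀ (y : ℕ → ℕ) (b : ℕ → ℕ → ℕ),
      (∀ᶠ j : ℕ in atTop, (y j : ℝ) ≤ (2 : ℝ) ^ (θ * j)) →
      ∀ᵐ ω ∂μ,
        (∀ᶠ r : ℕ in atTop, ∃ r' ∈ hybrid z y b (fun p => A p ω), r < r' ∧
          √(r' : ℝ) - √(r : ℝ) < (r : ℝ) ^ (κ - 1 / 2)) ∧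
        (∀ᶠ x : ℝ in atTop, ∀ H : ℝ, x ^ κ ≤ H → H ≤ x →
          k * H / Real.log x ≤ count (hybrid z y b (fun p => A p ω)) x H) := by
    intro θ κ hθ hθκ hκ
    obtain ⟨c, hc, H⟩ := Pool.Agent.H532.AN.low_block θ ((2 * θ + κ) / 2) hθ (by linarith)
    refine ⟨c / 8, by positivity, ?_⟩
    intro Ω _ μ _ A hA z hz y b hy
    filter_upwards [H μ A (hR hA) z hz.mono hz.lim y b hy] with ω hω
    have h1 := Pool.Agent.H532.AN.real_low (hybrid z y b (fun p => A p ω)) c
      ((2 * θ + κ) / 2) κ hc (by linarith) (by linarith) hω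
    exact ⟨Pool.Agent.H532.AN.sqrt_low _ κ (c / 8) (by positivity) hκ h1, h1⟩
  refine ⟨?_, ⟨Pool.Agent.H532.RM.zBFT_mono, Pool.Agent.H532.RM.zBFT_lim⟩, ?_, quant, ?_⟩
  · obtain ⟨μ, h1, h2⟩ := Pool.Agent.H532.RM.exists_randomClasses
    exact ⟨μ, h1, ⟨h2.meas, h2.indep, h2.unif⟩⟩
  · intro θ hθ Ω _ μ _ A hA z hz y b hy
    set θ' : ℝ := max θ (1 / 8) with hθ'
    have h1 : θ' < 1 / 4 := max_lt hθ (by norm_num)
    have h2 : (1 : ℝ) / 8 ≤ θ' := le_max_right _ _
    have h3 : θ ≤ θ' := le_max_left _ _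
    obtain ⟨k, hk, H⟩ := quant θ' ((2 * θ' + 1 / 2) / 2) (by linarith) (by linarith)
      (by linarith)
    have hy' : ∀ᶠ j : ℕ in atTop, (y j : ℝ) ≤ (2 : ℝ) ^ (θ' * j) := by
      filter_upwards [hy] with j hj
      refine hj.trans (Real.rpow_le_rpow_of_exponent_le (by norm_num) ?_)
      have : (0 : ℝ) ≤ j := by positivity
      nlinarith
    filter_upwards [H Ω μ A hA z hz y b hy'] with ω hω c hc
    have h4 : Tendsto (fun r : ℝ => r ^ (-(1 / 2 - (2 * θ' + 1 / 2) / 2))) atTop (𝓝 0) :=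
      tendsto_rpow_neg_atTop (by linarith)
    have h5 := (h4.comp tendsto_natCast_atTop_atTop).eventually (gt_mem_nhds hc)
    filter_upwards [hω.1, h5] with r h6 h7
    obtain ⟨r', a1, a2, a3⟩ := h6
    refine ⟨r', a1, a2, a3.trans ?_⟩
    have e : (2 * θ' + 1 / 2) / 2 - 1 / 2 = -(1 / 2 - (2 * θ' + 1 / 2) / 2) := by ring
    rw [e]
    exact h7
  · intro θ hθ y hy
    refine ⟨fun j _ => 2 ^ j, fun z hz a C => ?_⟩
    exact Pool.Agent.H532.AN.neg θ hθ y hy z hz.mono hz.lim a C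

end Pool.Agent.Results.MP_82fd4a_nt.AndricaInHybridSieves
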