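import Pool.Agent.H521.G.Andrica

open MeasureTheory Set Filter Topology
open scoped ENNReal ComplexConjugate

namespace Pool.Agent.Results.MP_82fd4a_nt.GapsViolatingAndrica

/-- A sequence of (Beurling) generalised primes `1 < p 0 < p 1 < ⋯ → ∞`. -/
structure GenPrimes (p : ℕ → ℝ) : Prop where
  one_lt : 1 < p 0
  strictMono : StrictMono p
  tendsto : Tendsto p atTop atTop

/-- The generalised integer `∏ p_j ^ (e j)` with exponent vector `e`. -/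
noncomputable def genInt (p : ℕ → ℝ) (e : ℕ →₀ ℕ) : ℝ := e.prod fun j k => p j ^ k

/-- `N_P(x)`, the number of generalised integers `≤ x`, counted with multiplicity. -/
noncomputable def countInts (p : ℕ → ℝ) (x : ℝ) : ℕ := Set.ncard {e : ℕ →₀ ℕ | genInt p e ≤ x}

/-- `π_P(x)`, the number of generalised primes `≤ x`. -/
noncomputable def countPrimes (p : ℕ → ℝ) (x : ℝ) : ℕ := Set.ncard {j : ℕ | p j ≤ x}

/-- The zeta function `ζ_P(s) = ∑ n^{-s}` over the generalised integers. -/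
noncomputable def zetaP (p : ℕ → ℝ) (s : ℂ) : ℂ := ∑' e : ℕ →₀ ℕ, ((genInt p e : ℝ) : ℂ) ^ (-s)

/-- The main term `∫_2^x (1 - ∑_{ρ ∈ Z} Re u^{ρ-1}) du / log u` of the prime counting function,
that is `li x - ∑_ρ li x^ρ` up to a constant, for a finite multiset `Z` of zeros. -/
noncomputable def primeMain (Z : Multiset ℂ) (x : ℝ) : ℝ :=
  ∫ u in (2 : ℝ)..x, (1 - (Z.map fun ρ => ((u : ℂ) ^ (ρ - 1)).re).sum) / Real.log u

/-- `p` is a system of generalised primes whose zeta function continues to `Re s > 1/2`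
with only a simple pole at `1`, with zeros exactly `Z` there (with multiplicity) and with the
Lindelöf bound, and with square-root error terms in the counting of generalised integers and
of generalised primes.  For `Z = 0` this is the Riemann hypothesis for `p`. -/
structure System (Z : Multiset ℂ) (p : ℕ → ℝ) : Prop where
  primes : GenPrimes p
  summable : ∀ s : ℂ, 1 < s.re → Summable fun e : ℕ →₀ ℕ => ((genInt p e : ℝ) : ℂ) ^ (-s)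
  zeta : ∃ g : ℂ → ℂ, DifferentiableOn ℂ g {s : ℂ | 1 / 2 < s.re} ∧
    (∀ s : ℂ, 1 < s.re → (s - 1) * zetaP p s = (Z.map fun ρ => s - ρ).prod * Complex.exp (g s)) ∧
    ∀ ε : ℝ, 0 < ε → ∃ C : ℝ, ∀ s : ℂ, 1 / 2 + ε ≤ s.re →
      ‖(Z.map fun ρ => s - ρ).prod * Complex.exp (g s)‖ ≤ C * (1 + ‖s‖) ^ (1 + ε)
  ints : ∃ κ : ℝ, 0 < κ ∧ ∀ ε : ℝ, 0 < ε → ∃ C : ℝ, ∀ x : ℝ, 1 ≤ x →
    |(countInts p x : ℝ) - κ * x| ≤ C * x ^ (1 / 2 + ε)
  pnt : ∀ ε : ℝ, 0 < ε → ∃ C : ℝ, ∀ x : ℝ, 2 ≤ x →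
    |(countPrimes p x : ℝ) - primeMain Z x| ≤ C * x ^ (1 / 2 + ε)

/-- From some point on, the gaps `(p n, p (n+1))` with `√p (n+1) - √p n ≥ c` are exactly the pairs
in `G`. -/
def LargeGaps (p : ℕ → ℝ) (c : ℝ) (G : Set (ℝ × ℝ)) : Prop := ∃ x₁ : ℝ, ∀ x y : ℝ, x₁ ≤ x →
  ((x, y) ∈ G ↔ ∃ n, p n = x ∧ p (n + 1) = y ∧ c ≤ √y - √x)

/-- From some point on, the pairs in `G` have `√q.2 - √q.1 ≥ c`, do not overlap, their number up to
`x` is `O(x^ε)` and `q.2 - q.1 = O(q.1^(1/2+ε))`, for every `ε > 0`. -/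
def Admissible (c : ℝ) (G : Set (ℝ × ℝ)) : Prop := ∃ x₁ : ℝ,
  (∀ q ∈ G, x₁ ≤ q.1 → c ≤ √q.2 - √q.1) ∧
  (∀ q ∈ G, ∀ q' ∈ G, x₁ ≤ q.1 → q.1 ≤ q'.1 → q = q' ∨ q.2 ≤ q'.1) ∧
  (∀ ε : ℝ, 0 < ε → ∃ C : ℝ, ∀ x : ℝ, 1 ≤ x → {q ∈ G | x₁ ≤ q.1 ∧ q.1 ≤ x}.Finite ∧
    ({q ∈ G | x₁ ≤ q.1 ∧ q.1 ≤ x}.ncard : ℝ) ≤ C * x ^ ε) ∧
  (∀ ε : ℝ, 0 < ε → ∃ C : ℝ, ∀ q ∈ G, x₁ ≤ q.1 → q.2 - q.1 ≤ C * q.1 ^ (1 / 2 + ε))

open Pool.Agent.H521 Pool.Agent.H521.G in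
/-- **Theorem.** Complete description of the gaps violating Andrica's inequality (`c = 1`), or
`√p_{n+1} - √p_n < c`, for systems of generalised primes with the Riemann hypothesis (or any other
finite set of zeros) and square-root error terms. -/
theorem result (Z : Multiset ℂ) (hZ : ∀ ρ ∈ Z, 1 / 2 < ρ.re ∧ ρ.re < 1)
    (hZc : Z.map conj = Z) (c : ℝ) (hc : 0 < c) (G : Set (ℝ × ℝ)) :
    (∃ p : ℕ → ℝ, System Z p ∧ LargeGaps p c G) ↔ Admissible c G := by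
  have hZ1 : ∀ ρ ∈ Z, ρ.re < 1 := fun ρ h => (hZ ρ h).2
  constructor
  · rintro ⟨p, hS, x₁, h⟩
    exact andrica_nec hZ1 hZc ⟨hS.primes.one_lt, hS.primes.strictMono, hS.primes.tendsto,
      hS.summable, hS.zeta, hS.pnt⟩ hc h
  · intro h
    obtain ⟨p, hS, hG⟩ := andrica_suff hZ1 hZc hc h
    exact ⟨p, ⟨⟨by linarith [hS.three_le 0], hS.mono, hS.tendsto⟩, hS.summable, hS.zeta,
      hS.ints, hS.pnt⟩, hG⟩

end Pool.Agent.Results.MP_82fd4a_nt.GapsViolatingAndrica
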